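import Pool.Agent.Helper79.LH.Mul
import Pool.Graph.R_pool_sql_team_seeded_64922ed1.Results.MP_7ab245_nt.DobrowolskiDiscriminant

/-!
# Odlyzko-Poonen: Dobrowolski's theorem in the form needed
-/

set_option autoImplicit false

open Finset Filter

namespace Pool.Agent.Helper79.LC

/-- PACKAGE D (Dobrowolski, from the library). -/
theorem dobro : ∃ c : ℝ, 0 < c ∧ ∀ (n : ℕ) (g : Polynomial ℤ), 3 ≤ n → Irreducible g →
    1 ≤ g.natDegree → g.natDegree ≤ n → 1 < MM g → c / Real.log n ^ 3 ≤ Real.log (MM g) := by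
  obtain ⟨c, hc0, hc⟩ := Pool.Agent.Results.MP_7ab245_nt.DobrowolskiDiscriminant.dobrowolski
  refine ⟨c * (Real.log 2 / 2) ^ 3, by have := Real.log_pos (by norm_num : (1 : ℝ) < 2); positivity, ?_⟩
  intro n g hn hg hd hdn hM
  have h1 := hc g hg hM (by omega)
  set d := g.natDegree with hdd
  have hn3 : (3 : ℝ) ≤ n := by exact_mod_cast hn
  have hL1 : 1 < Real.log n := by
    have h1 := Real.log_le_log (by norm_num) hn3
    have h2 : 1 < Real.log 3 := by
      rw [Real.lt_log_iff_exp_lt (by norm_num)]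
      have := Real.exp_one_lt_d9
      linarith
    linarith
  have hd1 : (1 : ℝ) ≤ d := by exact_mod_cast hd
  have hdn' : (d : ℝ) ≤ n := by exact_mod_cast hdn
  have hld : Real.log d ≤ Real.log n := Real.log_le_log (by linarith) hdn'
  have hld0 : 0 ≤ Real.log d := Real.log_nonneg hd1
  have hl2 : 0 < Real.log 2 := Real.log_pos (by norm_num)
  have h2 : Real.log 2 / 2 / Real.log n ≤ Real.log (2 + Real.log d) / (1 + Real.log d) := by
    have e1 : Real.log 2 / 2 / Real.log n = Real.log 2 / (2 * Real.log n) := by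
      rw [div_div]
    rw [e1]
    apply div_le_div₀
    · exact Real.log_nonneg (by linarith)
    · exact Real.log_le_log (by norm_num) (by linarith)
    · linarith
    · linarith
  have h3 : c * (Real.log 2 / 2) ^ 3 / Real.log n ^ 3 ≤
      c * (Real.log (2 + Real.log d) / (1 + Real.log d)) ^ 3 := by
    have e1 : c * (Real.log 2 / 2) ^ 3 / Real.log n ^ 3 = c * (Real.log 2 / 2 / Real.log n) ^ 3 := by
      rw [mul_div_assoc, ← div_pow]
    rw [e1]
    apply mul_le_mul_of_nonneg_left _ hc0.le
    exact pow_le_pow_left₀ (by positivity) h2 3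
  refine h3.trans ?_
  rw [Real.le_log_iff_exp_le (by linarith)]
  exact h1

end Pool.Agent.Helper79.LC
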