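import Pool.Agent.Helper36.OP.H3b

/-!
# Odlyzko-Poonen: noncyclotomic factors of small Mahler measure (union over the factors)
-/

set_option autoImplicit false

open Finset Filter

namespace Pool.Agent.Helper79.LC

/-- a divisor of a monic polynomial has a unit as leading coefficient -/
lemma lc_unit {f g : Polynomial ℤ} (hf : f.Monic) (h : g ∣ f) : IsUnit g.leadingCoeff := by
  have h1 := Polynomial.leadingCoeff_dvd_leadingCoeff h
  rw [hf.leadingCoeff] at h1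
  exact isUnit_of_dvd_one h1

/-- the set of the bad `S` for one factor -/
lemma bad_finite (n : ℕ) (g : Polynomial ℤ) :
    ({S : Finset ℕ | S ⊆ Ioo 0 n ∧ g ∣ pol n S} : Set (Finset ℕ)).Finite := by
  refine (finite_toSet (Ioo 0 n).powerset).subset ?_
  rintro S ⟨h1, _⟩
  exact mem_coe.mpr (mem_powerset.mpr h1)

/-- the bound for one factor -/
lemma bound_unit
    (W : ∀ ε : ℝ, 0 < ε → ∀ᶠ n : ℕ in atTop,
      ((famT n ((n : ℝ) ^ (0.27 : ℝ))).ncard : ℝ) ≤ Real.exp (ε * n)) :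
    ∀ᶠ n : ℕ in atTop, ∀ g : Polynomial ℤ, Irreducible g → 1 ≤ g.natDegree → 1 < MM g →
      (({S : Finset ℕ | S ⊆ Ioo 0 n ∧ g ∣ pol n S} : Set (Finset ℕ)).ncard : ℝ) ≤
        2 ^ (n - 1) * Real.exp (-(0.5 * (((n : ℝ) - 1) / Real.log n ^ 5 - 1))) := by
  filter_upwards [bound_monic W, eventually_ge_atTop 2] with n hn hn2 g hi hd hM
  rcases Set.eq_empty_or_nonempty ({S : Finset ℕ | S ⊆ Ioo 0 n ∧ g ∣ pol n S} : Set (Finset ℕ))
    with h0 | ⟨S, hS, hgS⟩
  · rw [h0, Set.ncard_empty, Nat.cast_zero]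
    positivity
  have hmon := monic_pol (by omega : 1 ≤ n) hS
  have hle : g.natDegree ≤ n := by
    have h1 := Polynomial.natDegree_le_of_dvd hgS hmon.ne_zero
    rwa [natDegree_pol (by omega) hS] at h1
  have hc0 : g.coeff 0 ≠ 0 := by
    intro h0
    have h1 : Polynomial.X ∣ pol n S := (Polynomial.X_dvd_iff.mpr h0).trans hgS
    rw [Polynomial.X_dvd_iff, coeff_zero_pol (by omega) hS] at h1
    exact one_ne_zero h1
  rcases Int.isUnit_iff.mp (lc_unit hmon hgS) with h1 | h1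
  · exact hn g h1 hi hd hle hc0 hM
  · have hneg : (-g).Monic := by
      rw [Polynomial.Monic, Polynomial.leadingCoeff_neg, h1, neg_neg]
    have hMn : MM (-g) = MM g := by
      have e : -g = Polynomial.C (-1) * g := by rw [Polynomial.C_neg, Polynomial.C_1]; ring
      rw [e, MM_mul, MM_C]
      norm_num
    have h2 := hn (-g) hneg ((Associated.neg_left (Associated.refl g)).irreducible_iff.mpr hi)
      (by rwa [Polynomial.natDegree_neg]) (by rwa [Polynomial.natDegree_neg])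
      (by rwa [Polynomial.coeff_neg, neg_ne_zero]) (by rwa [hMn])
    simpa only [neg_dvd] using h2

/-- the exponent tends to `-∞` -/
lemma expo_lim {C : ℝ} (hC : 0 < C) :
    Tendsto (fun n : ℕ => Real.exp (C * (2 * (n : ℝ) ^ (0.23 : ℝ)) ^ 2 * √(n * Real.log n) -
      0.5 * (((n : ℝ) - 1) / Real.log n ^ 5 - 1))) atTop (nhds 0) := by
  apply Real.tendsto_exp_atBot.comp
  have hy : Tendsto (fun n : ℕ => -((n : ℝ) ^ (0.01 : ℝ))) atTop atBot :=
    tendsto_neg_atTop_atBot.comp ((tendsto_rpow_atTop (by norm_num)).comp tendsto_natCast_atTop_atTop)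
  refine tendsto_atBot_mono' atTop ?_ hy
  filter_upwards [ev_large (8 * C + 4)] with n hlarge
  obtain ⟨h1, h2, h3, h4⟩ := hlarge
  set L := Real.log n with hL
  set y : ℝ := (n : ℝ) ^ (0.01 : ℝ) with hy
  have hn3 : (3 : ℝ) ≤ n := by exact_mod_cast h4
  have hn0 : (0 : ℝ) < n := by linarith
  have hy0 : 0 < y := Real.rpow_pos_of_pos hn0 _
  have hy4 : 4 ≤ y := by linarith
  have hyn : y ^ 100 = n := by
    rw [hy, ← Real.rpow_natCast, ← Real.rpow_mul hn0.le]; norm_num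
  have hy23 : (n : ℝ) ^ (0.23 : ℝ) = y ^ 23 := by
    rw [hy, ← Real.rpow_natCast, ← Real.rpow_mul hn0.le]; norm_num
  have hL5 : 0 < L ^ 5 := by positivity
  have hLL5 : L ≤ L ^ 5 := by
    calc L = L ^ 1 := (pow_one L).symm
      _ ≤ L ^ 5 := pow_le_pow_right₀ h3 (by norm_num)
  have hLy : L ≤ y := hLL5.trans h1
  have hsq : √(n * L) ≤ y ^ 50 * y := by
    apply Real.sqrt_le_iff.mpr
    refine ⟨by positivity, ?_⟩
    calc (n : ℝ) * L ≤ y ^ 100 * y := by rw [hyn]; gcongr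
      _ ≤ y ^ 100 * (y * y) := by
          apply mul_le_mul_of_nonneg_left _ (by positivity)
          nlinarith
      _ = (y ^ 50 * y) ^ 2 := by ring
  have hA : C * (2 * (n : ℝ) ^ (0.23 : ℝ)) ^ 2 * √(n * L) ≤ 4 * C * y ^ 97 := by
    rw [hy23]
    calc C * (2 * y ^ 23) ^ 2 * √(n * L) ≤ C * (2 * y ^ 23) ^ 2 * (y ^ 50 * y) := by gcongr
      _ = 4 * C * y ^ 97 := by ring
  have hB : y ^ 99 - 1 ≤ ((n : ℝ) - 1) / L ^ 5 := by
    rw [le_div_iff₀ hL5]
    have h99 : 1 ≤ y ^ 99 := one_le_pow₀ (by linarith)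
    calc (y ^ 99 - 1) * L ^ 5 ≤ (y ^ 99 - 1) * y := by
          apply mul_le_mul_of_nonneg_left h1 (by linarith)
      _ = y ^ 100 - y := by ring
      _ ≤ n - 1 := by rw [hyn]; linarith
  have h97 : y ≤ y ^ 97 := by
    calc y = y ^ 1 := (pow_one y).symm
      _ ≤ y ^ 97 := pow_le_pow_right₀ (by linarith) (by norm_num)
  have hC99 : (16 * C + 8) * y ^ 97 ≤ 0.5 * y ^ 99 := by
    have e : y ^ 99 = y * y * y ^ 97 := by ring
    rw [e, ← mul_assoc]
    apply mul_le_mul_of_nonneg_right _ (by positivity)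
    nlinarith
  have hCy : 0 ≤ C * y ^ 97 := by positivity
  nlinarith

/-- PACKAGE H, first part: few polynomials have a noncyclotomic irreducible factor of small Mahler
measure. -/
theorem noncyc_part (W : ∀ ε : ℝ, 0 < ε → ∀ᶠ n : ℕ in atTop,
      ((famT n ((n : ℝ) ^ (0.27 : ℝ))).ncard : ℝ) ≤ Real.exp (ε * n)) :
    Tendsto (fun n : ℕ => (({S : Finset ℕ | S ⊆ Ioo 0 n ∧
      ∃ g : Polynomial ℤ, Irreducible g ∧ 1 ≤ g.natDegree ∧ 1 < MM g ∧
        MM g ≤ 2 * (n : ℝ) ^ (0.23 : ℝ) ∧ g ∣ pol n S} : Set (Finset ℕ)).ncard : ℝ) /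
        (2 : ℝ) ^ (n - 1)) atTop (nhds 0) := by
  classical
  obtain ⟨C, hC, hcount⟩ := count_sqrt
  refine squeeze_zero' (Eventually.of_forall fun n => by positivity) ?_ (expo_lim hC)
  filter_upwards [bound_unit W, eventually_ge_atTop 2] with n hn hn2
  have hn2' : (2 : ℝ) ≤ n := by exact_mod_cast hn2
  have hn0 : (0 : ℝ) < n := by linarith
  set T : ℝ := 2 * (n : ℝ) ^ (0.23 : ℝ) with hT
  have hT1 : 1 ≤ T := by
    have := Real.one_le_rpow (by linarith : (1 : ℝ) ≤ n) (by norm_num : (0 : ℝ) ≤ 0.23)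
    linarith
  have hT0 : 0 ≤ T := by linarith
  set X : ℝ := Real.exp (-(0.5 * (((n : ℝ) - 1) / Real.log n ^ 5 - 1))) with hX
  set 𝒢 : Finset (Polynomial ℤ) := (finite_famT n hT0).toFinset.filter
    fun g => Irreducible g ∧ 1 ≤ g.natDegree ∧ 1 < MM g with h𝒢
  have hcard : (#𝒢 : ℝ) ≤ Real.exp (C * T ^ 2 * √(n * Real.log n)) := by
    have h1 : #𝒢 ≤ (famT n T).ncard := by
      rw [Set.ncard_eq_toFinset_card _ (finite_famT n hT0)]
      exact card_filter_le _ _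
    have h2 : (#𝒢 : ℝ) ≤ (famT n T).ncard := by exact_mod_cast h1
    exact h2.trans (hcount n T hn2 hT1)
  set A : Set (Finset ℕ) := {S : Finset ℕ | S ⊆ Ioo 0 n ∧
      ∃ g : Polynomial ℤ, Irreducible g ∧ 1 ≤ g.natDegree ∧ 1 < MM g ∧
        MM g ≤ T ∧ g ∣ pol n S} with hA
  have hsub : A ⊆ ((𝒢.biUnion fun g => (bad_finite n g).toFinset : Finset (Finset ℕ)) :
      Set (Finset ℕ)) := by
    rintro S ⟨h1, g, h2, h3, h4, h5, h6⟩
    rw [mem_coe, mem_biUnion]
    refine ⟨g, ?_, by rw [Set.Finite.mem_toFinset]; exact ⟨h1, h6⟩⟩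
    rw [h𝒢, mem_filter, Set.Finite.mem_toFinset]
    have h7 := Polynomial.natDegree_le_of_dvd h6 (pol_ne_zero (by omega) h1)
    rw [natDegree_pol (by omega) h1] at h7
    exact ⟨⟨h7, h5⟩, h2, h3, h4⟩
  have h1 : A.ncard ≤ ∑ g ∈ 𝒢, #(bad_finite n g).toFinset := by
    refine (Set.ncard_le_ncard hsub (finite_toSet _)).trans ?_
    rw [Set.ncard_coe_finset]
    exact card_biUnion_le
  have h2 : (A.ncard : ℝ) ≤ #𝒢 * (2 ^ (n - 1) * X) := by
    calc (A.ncard : ℝ) ≤ ((∑ g ∈ 𝒢, #(bad_finite n g).toFinset : ℕ) : ℝ) := by exact_mod_cast h1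
      _ = ∑ g ∈ 𝒢, (#(bad_finite n g).toFinset : ℝ) := by push_cast; rfl
      _ ≤ ∑ g ∈ 𝒢, (2 ^ (n - 1) * X) := by
          refine sum_le_sum fun g hg => ?_
          obtain ⟨_, h3, h4, h5⟩ := mem_filter.mp hg
          have h6 := hn g h3 h4 h5
          rwa [Set.ncard_eq_toFinset_card _ (bad_finite n g)] at h6
      _ = #𝒢 * (2 ^ (n - 1) * X) := by rw [sum_const, nsmul_eq_mul]
  rw [div_le_iff₀ (by positivity)]
  refine h2.trans ?_
  calc (#𝒢 : ℝ) * (2 ^ (n - 1) * X) ≤ Real.exp (C * T ^ 2 * √(n * Real.log n)) * (2 ^ (n - 1) * X) := by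
        gcongr
    _ = Real.exp (C * T ^ 2 * √(n * Real.log n)) * X * 2 ^ (n - 1) := by ring
    _ = _ := by rw [hX, ← Real.exp_add, ← sub_eq_add_neg]

end Pool.Agent.Helper79.LC
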