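import Mathlib

/-!
# Odlyzko-Poonen: choice of a prime
-/

set_option autoImplicit false

open Finset Filter

namespace Pool.Agent.Helper79.LC

/-- a real-variable inequality -/
lemma prime_real {C L : ℝ} (hC : 0 < C) (hL : 2 ≤ L) (h1 : Real.log L ≤ 1 / (10 * (C + 4)) * L)
    (h2 : Real.log (L ^ 5 + 1) ≤ 0.1 * L ^ 5) {P : ℕ} (hP1 : L ^ 5 - 1 ≤ P) (hP2 : (P : ℝ) ≤ L ^ 5) :
    (C + 4) * L ^ 4 ≤ (P * Real.log 2 - Real.log (P + 1)) / Real.log P := by
  have hL5 : (32 : ℝ) ≤ L ^ 5 := by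
    calc (32 : ℝ) = 2 ^ 5 := by norm_num
      _ ≤ L ^ 5 := by gcongr
  have hP3 : (31 : ℝ) ≤ P := by linarith
  have hlogP : 0 < Real.log P := Real.log_pos (by linarith)
  rw [le_div_iff₀ hlogP]
  have e1 : Real.log P ≤ 5 * Real.log L := by
    calc Real.log P ≤ Real.log (L ^ 5) := Real.log_le_log (by linarith) hP2
      _ = 5 * Real.log L := by rw [Real.log_pow]; norm_num
  have e2 : Real.log (P + 1) ≤ 0.1 * L ^ 5 := (Real.log_le_log (by linarith) (by linarith)).trans h2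
  have e3 : 0.6 * L ^ 5 ≤ P * Real.log 2 := by
    have := Real.log_two_gt_d9
    nlinarith
  have e4 : (C + 4) * L ^ 4 * Real.log P ≤ 0.5 * L ^ 5 := by
    calc (C + 4) * L ^ 4 * Real.log P ≤ (C + 4) * L ^ 4 * (5 * (1 / (10 * (C + 4)) * L)) := by
          gcongr
          linarith
      _ = 0.5 * L ^ 5 := by
          field_simp
          norm_num
  linarith

lemma exists_prime {C : ℝ} (hC : 0 < C) : ∀ᶠ n : ℕ in atTop, ∀ B : Finset ℕ, 2 ^ #B ≤ n →
    ∃ p : ℕ, p.Prime ∧ p ∉ B ∧ C * Real.log n ^ 4 ≤ p ∧ (p : ℝ) ≤ Real.log n ^ 5 := by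
  have hlog : Tendsto (fun n : ℕ => Real.log n) atTop atTop :=
    Real.tendsto_log_atTop.comp tendsto_natCast_atTop_atTop
  have ev1 : ∀ᶠ L : ℝ in atTop, Real.log L ≤ 1 / (10 * (C + 4)) * L := by
    have h := Real.isLittleO_log_id_atTop.bound (c := 1 / (10 * (C + 4))) (by positivity)
    filter_upwards [h, eventually_ge_atTop 1] with L hL h1
    rw [Real.norm_eq_abs, Real.norm_eq_abs, id, abs_of_nonneg (by linarith : 0 ≤ L)] at hL
    exact (le_abs_self _).trans hL
  have ev2 : ∀ᶠ L : ℝ in atTop, Real.log (L ^ 5 + 1) ≤ 0.1 * L ^ 5 := by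
    have h := Real.isLittleO_log_id_atTop.bound (c := 0.05) (by norm_num)
    have ht : Tendsto (fun L : ℝ => L ^ 5 + 1) atTop atTop :=
      tendsto_atTop_add_const_right _ _ (tendsto_pow_atTop (by norm_num))
    filter_upwards [ht.eventually h, eventually_ge_atTop 1] with L hL h1
    have h5 : 1 ≤ L ^ 5 := one_le_pow₀ h1
    rw [Real.norm_eq_abs, Real.norm_eq_abs, id, abs_of_nonneg (by linarith : 0 ≤ L ^ 5 + 1)] at hL
    have := (le_abs_self _).trans hL
    linarith
  filter_upwards [hlog.eventually ev1, hlog.eventually ev2, hlog.eventually (eventually_ge_atTop 2),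
    eventually_ge_atTop 1] with n h1 h2 h3 hn B hB
  set L := Real.log n with hLdef
  set P : ℕ := ⌊L ^ 5⌋₊ with hPdef
  have hP2 : (P : ℝ) ≤ L ^ 5 := Nat.floor_le (by positivity)
  have hP1 : L ^ 5 - 1 ≤ P := by
    have := Nat.lt_floor_add_one (L ^ 5)
    linarith
  have hkey := (prime_real hC h3 h1 h2 hP1 hP2).trans (Chebyshev.pi_ge P)
  by_contra hcon
  push Not at hcon
  set Q : ℕ := ⌈C * L ^ 4⌉₊ with hQ
  have hsub : (P + 1).primesBelow ⊆ range Q ∪ B := by
    intro p hp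
    rw [Nat.mem_primesBelow] at hp
    rw [mem_union, mem_range]
    by_contra hno
    push Not at hno
    have h4 : C * L ^ 4 ≤ p := (Nat.le_ceil _).trans (by exact_mod_cast hno.1)
    have h5 := hcon p hp.2 hno.2 h4
    have h6 : (p : ℝ) ≤ P := by exact_mod_cast Nat.lt_succ_iff.mp hp.1
    linarith
  have hcard : (P.primeCounting : ℝ) ≤ Q + #B := by
    have h4 := (card_le_card hsub).trans (card_union_le _ _)
    rw [Nat.primesBelow_card_eq_primeCounting', card_range] at h4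
    exact_mod_cast h4
  have hQ2 : (Q : ℝ) ≤ C * L ^ 4 + 1 := (Nat.ceil_lt_add_one (by positivity)).le
  have hB2 : (#B : ℝ) ≤ L / Real.log 2 := by
    rw [le_div_iff₀ (Real.log_pos (by norm_num))]
    have h4 : ((2 : ℝ) ^ #B) ≤ n := by exact_mod_cast hB
    have h5 := Real.log_le_log (by positivity) h4
    rwa [Real.log_pow] at h5
  have hB3 : L / Real.log 2 ≤ 2 * L := by
    rw [div_le_iff₀ (Real.log_pos (by norm_num))]
    have := Real.log_two_gt_d9
    nlinarith
  have hL4 : 2 * L + 1 < 4 * L ^ 4 := by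
    have : (8 : ℝ) ≤ L ^ 3 := by
      calc (8 : ℝ) = 2 ^ 3 := by norm_num
        _ ≤ L ^ 3 := by gcongr
    have h5 : L ^ 4 = L ^ 3 * L := by ring
    nlinarith
  linarith

end Pool.Agent.Helper79.LC
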