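import Pool.Agent.Helper79.LH.Mul
import Pool.Agent.Helper36.OP.H3a
import Pool.Agent.Helper7.OP.G
import Pool.Agent.Helper7.OP.P
import Pool.Agent.Helper7.OP.H3
import Pool.Agent.Helper36.OP.D

/-!
# Odlyzko-Poonen: noncyclotomic factors of small Mahler measure
-/

set_option autoImplicit false

open Finset Filter

namespace Pool.Agent.Helper79.LC

/-- the real-variable events needed for large `n` -/
lemma ev_large (A : ℝ) : ∀ᶠ n : ℕ in atTop, Real.log n ^ 5 ≤ (n : ℝ) ^ (0.01 : ℝ) ∧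
    A ≤ (n : ℝ) ^ (0.01 : ℝ) ∧ 1 ≤ Real.log n ∧ 3 ≤ n := by
  have hcast := tendsto_natCast_atTop_atTop (R := ℝ)
  have e1 : ∀ᶠ x : ℝ in atTop, Real.log x ^ 5 ≤ x ^ (0.01 : ℝ) := by
    have h := (isLittleO_log_rpow_rpow_atTop (s := 0.01) 5 (by norm_num)).bound
      (c := 1) (by norm_num)
    filter_upwards [h, eventually_ge_atTop 1] with x hx h1
    have h0 : 0 ≤ Real.log x := Real.log_nonneg h1
    rw [one_mul, Real.norm_eq_abs, Real.norm_eq_abs,
      abs_of_nonneg (Real.rpow_nonneg h0 _), abs_of_nonneg (Real.rpow_nonneg (by linarith) _)] at hx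
    have h5 : Real.log x ^ (5 : ℝ) = Real.log x ^ 5 := by exact_mod_cast Real.rpow_natCast _ 5
    rwa [h5] at hx
  have e2 : ∀ᶠ x : ℝ in atTop, A ≤ x ^ (0.01 : ℝ) :=
    (tendsto_rpow_atTop (by norm_num)).eventually (eventually_ge_atTop A)
  have e3 : ∀ᶠ x : ℝ in atTop, 1 ≤ Real.log x := Real.tendsto_log_atTop.eventually (eventually_ge_atTop 1)
  filter_upwards [hcast.eventually e1, hcast.eventually e2, hcast.eventually e3,
    eventually_ge_atTop 3] with n h1 h2 h3 h4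
  exact ⟨h1, h2, h3, h4⟩

/-- the bound for one monic factor -/
lemma bound_monic
    (W : ∀ ε : ℝ, 0 < ε → ∀ᶠ n : ℕ in atTop,
      ((famT n ((n : ℝ) ^ (0.27 : ℝ))).ncard : ℝ) ≤ Real.exp (ε * n)) :
    ∀ᶠ n : ℕ in atTop, ∀ g : Polynomial ℤ, g.Monic → Irreducible g → 1 ≤ g.natDegree →
      g.natDegree ≤ n → g.coeff 0 ≠ 0 → 1 < MM g →
      (({S : Finset ℕ | S ⊆ Ioo 0 n ∧ g ∣ pol n S} : Set (Finset ℕ)).ncard : ℝ) ≤
        2 ^ (n - 1) * Real.exp (-(0.5 * (((n : ℝ) - 1) / Real.log n ^ 5 - 1))) := by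
  obtain ⟨c, hc, hdob⟩ := dobro
  have hC : 0 < 0.24 / c := by positivity
  obtain ⟨N₀, hN₀⟩ := eventually_atTop.mp (W 0.1 (by norm_num))
  filter_upwards [exists_prime hC, ev_large (2 + N₀)] with n hprime hlarge g hm hi hd hdn h0 hM
  obtain ⟨h1, h2, h3, h4⟩ := hlarge
  obtain ⟨B, hB, hBp⟩ := deg_lemma g hm hi hd h0
  obtain ⟨p, hp, hpB, hp1, hp2⟩ := hprime B (hB.trans hdn)
  obtain ⟨h, hhm, hhd, hMh, hdvd⟩ := hBp p hp hpB
  set L := Real.log n with hL
  set y : ℝ := (n : ℝ) ^ (0.01 : ℝ) with hy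
  have hn3 : (3 : ℝ) ≤ n := by exact_mod_cast h4
  have hn0 : (0 : ℝ) < n := by linarith
  have hp0 : (0 : ℝ) < p := by exact_mod_cast hp.pos
  have hy0 : 0 < y := Real.rpow_pos_of_pos hn0 _
  have hy2 : 2 ≤ y := by
    have : (0 : ℝ) ≤ N₀ := Nat.cast_nonneg _
    linarith
  have hyn : y ^ 100 = n := by
    rw [hy, ← Real.rpow_natCast, ← Real.rpow_mul hn0.le]; norm_num
  set N : ℕ := (n - 1) / p with hN
  have hNp : N * p < n := by
    have h5 : N * p ≤ n - 1 := Nat.div_mul_le_self (n - 1) p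
    omega
  -- lower bound for N
  have hN1 : ((n : ℝ) - 1) / L ^ 5 - 1 ≤ N := by
    have e1 : ((n - 1 : ℕ) : ℝ) / p < N + 1 := by
      rw [div_lt_iff₀ hp0]
      have := Nat.lt_div_mul_add (a := n - 1) hp.pos
      have e : n - 1 < (N + 1) * p := by rw [hN]; linarith
      exact_mod_cast e
    rw [Nat.cast_sub (by omega), Nat.cast_one] at e1
    have e2 : ((n : ℝ) - 1) / L ^ 5 ≤ ((n : ℝ) - 1) / p :=
      div_le_div_of_nonneg_left (by linarith) hp0 hp2
    linarith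
  have hNn : (N : ℝ) ≤ n := by
    have : N ≤ n := (Nat.div_le_self _ _).trans (by omega)
    exact_mod_cast this
  have hNN₀ : N₀ ≤ N := by
    have e1 : (N₀ : ℝ) + 1 ≤ ((n : ℝ) - 1) / L ^ 5 := by
      have hL5 : 0 < L ^ 5 := by positivity
      rw [le_div_iff₀ hL5]
      have hy99 : y * y ≤ y ^ 100 := by
        rw [← sq]; exact pow_le_pow_right₀ (by linarith) (by norm_num)
      calc ((N₀ : ℝ) + 1) * L ^ 5 ≤ (y - 1) * y := by
            apply mul_le_mul _ h1 hL5.le (by linarith)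
            linarith
        _ = y * y - y := by ring
        _ ≤ n - 1 := by rw [← hyn]; linarith
    have e2 : (N₀ : ℝ) ≤ N := by linarith
    exact_mod_cast e2
  have hfam := hN₀ N hNN₀
  have hN1' : 1 ≤ N := by
    have hp3 : (p : ℝ) ≤ y := hp2.trans h1
    have : (p : ℝ) ≤ ((n - 1 : ℕ) : ℝ) := by
      rw [Nat.cast_sub (by omega), Nat.cast_one]
      have hy99 : y * y ≤ y ^ 100 := by
        rw [← sq]; exact pow_le_pow_right₀ (by linarith) (by norm_num)
      rw [hyn] at hy99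
      nlinarith
    have : p ≤ n - 1 := by exact_mod_cast this
    rw [hN, Nat.one_le_div_iff hp.pos]
    exact this
  have hN0 : (0 : ℝ) < N := by exact_mod_cast hN1'
  have hN1r : (1 : ℝ) ≤ N := by exact_mod_cast hN1'
  -- the Mahler measure of h
  have hMh2 : (n : ℝ) ^ (0.24 : ℝ) ≤ MM h := by
    have e1 := hdob n g h4 hi hd hdn hM
    have e2 : 0.24 * L ≤ p * Real.log (MM g) := by
      calc 0.24 * L = (0.24 / c * L ^ 4) * (c / L ^ 3) := by
            have : L ≠ 0 := by linarith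
            field_simp
        _ ≤ p * Real.log (MM g) := by
            apply mul_le_mul hp1 e1 (by positivity) hp0.le
    rw [hMh, Real.rpow_def_of_pos hn0, ← Real.log_pow, ← hL, mul_comm] at *
    rw [← Real.exp_log (by positivity : 0 < MM g ^ p)]
    exact Real.exp_le_exp.mpr (by linarith)
  have hT : √((N : ℝ) + 1) ≤ (N : ℝ) ^ (0.27 : ℝ) * MM h := by
    calc √((N : ℝ) + 1) ≤ √(2 ^ 2 * N) := Real.sqrt_le_sqrt (by linarith)
      _ = 2 * √N := by rw [Real.sqrt_mul (by positivity), Real.sqrt_sq (by norm_num)]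
      _ = (N : ℝ) ^ (0.27 : ℝ) * ((N : ℝ) ^ (0.23 : ℝ) * 2) := by
          rw [Real.sqrt_eq_rpow, show (1 / 2 : ℝ) = 0.27 + 0.23 by norm_num, Real.rpow_add hN0]
          ring
      _ ≤ (N : ℝ) ^ (0.27 : ℝ) * ((n : ℝ) ^ (0.23 : ℝ) * y) := by
          gcongr
      _ = (N : ℝ) ^ (0.27 : ℝ) * (n : ℝ) ^ (0.24 : ℝ) := by
          rw [hy, ← Real.rpow_add hn0]; norm_num
      _ ≤ (N : ℝ) ^ (0.27 : ℝ) * MM h := by gcongr
  have hfin := prob_le (T := (N : ℝ) ^ (0.27 : ℝ)) hp.one_lt.le hNp hdvd (by positivity) hT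
  refine hfin.trans ?_
  have hNle : N ≤ n - 1 := Nat.div_le_self _ _
  have e1 : (2 : ℝ) ^ (n - 1 - N) = 2 ^ (n - 1) * Real.exp (-(Real.log 2 * N)) := by
    have e : (2 : ℝ) ^ (n - 1) = 2 ^ (n - 1 - N) * 2 ^ N := by
      rw [← pow_add]; congr 1; omega
    have e' : (2 : ℝ) ^ N = Real.exp (Real.log 2 * N) := by
      rw [← Real.rpow_natCast, Real.rpow_def_of_pos (by norm_num)]
    rw [e, e', mul_assoc, ← Real.exp_add]
    simp
  rw [e1, mul_assoc]
  apply mul_le_mul_of_nonneg_left _ (by positivity)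
  calc Real.exp (-(Real.log 2 * N)) * ((famT N ((N : ℝ) ^ (0.27 : ℝ))).ncard : ℝ)
      ≤ Real.exp (-(Real.log 2 * N)) * Real.exp (0.1 * N) := by gcongr
    _ = Real.exp (-(Real.log 2 * N) + 0.1 * N) := by rw [Real.exp_add]
    _ ≤ _ := by
        apply Real.exp_le_exp.mpr
        have h5 := Real.log_two_gt_d9
        have h6 : 0.6 * (N : ℝ) ≤ Real.log 2 * N := by gcongr; linarith
        linarith

end Pool.Agent.Helper79.LC
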